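import Pool.Agent.H.MP_09b497_an.C

namespace Pool.Agent.Results.MP_09b497_an.No

open Pool.Agent.H.MP_09b497_an
open scoped Classical

/-- For every infinite group `G`, convolution on `ℓ₁(G)` is not uniformly open, even when the
centres `a`, `b` range over the closed unit ball only. -/
theorem result (G : Type*) [Group G] [Infinite G] :
    ∃ ε : ℝ, 0 < ε ∧ ∀ δ : ℝ, 0 < δ → ∃ a b c : G → ℂ,
      L1 a ∧ L1 b ∧ L1 c ∧ L1 (conv a b) ∧ nrm a ≤ 1 ∧ nrm b ≤ 1 ∧ nrm (c - conv a b) < δ ∧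
      ¬ ∃ x y : G → ℂ, L1 x ∧ L1 y ∧ nrm (x - a) < ε ∧ nrm (y - b) < ε ∧ conv x y = c := by
  refine ⟨1 / 12, by norm_num, fun δ δ0 => ?_⟩
  have p0 : 0 < min (δ / 2) 1 := lt_min (by positivity) one_pos
  obtain ⟨S, S', h⟩ := main (G := G) p0 (min_le_right _ _)
  have hb := (un_L1 S').iv
  have hc : L1 (conv (un S) (iv (un S'))) := by
    refine summable_of_sum_le (c := ∑' g, ‖un S g‖ * nrm (iv (un S'))) (fun _ => norm_nonneg _)
      fun T => (conv_T (un_L1 S) hb T).trans ?_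
    refine Summable.tsum_le_tsum (fun g => ?_) ?_ (Summable.mul_right _ (un_L1 S))
    · exact mul_le_mul_of_nonneg_left (tr_le (fun _ => norm_nonneg _) hb T g) (norm_nonneg _)
    · exact summable_of_ne_finset_zero (s := S) fun g hg => by simp [un, hg]
  have hp : L1 (Pi.single 1 ((min (δ / 2) 1 : ℝ) : ℂ) : G → ℂ) :=
    summable_of_ne_finset_zero (s := {1}) fun g hg => by
      rw [Pi.single_eq_of_ne (by simpa using hg), norm_zero]
  refine ⟨un S, iv (un S'), _, un_L1 S, hb, (hc.add hp).1, hc, un_nrm S,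
    (nrm_iv _).trans_le (un_nrm S'), ?_, ?_⟩
  · rw [add_sub_cancel_left, nrm, tsum_eq_single 1 fun g hg => by
      rw [Pi.single_eq_of_ne hg, norm_zero], Pi.single_eq_same, Complex.norm_real,
      Real.norm_of_nonneg p0.le]
    exact (min_le_left _ _).trans_lt (by linarith)
  · rintro ⟨x, y, hx, hy, nx, ny, e⟩
    refine h _ _ (hx.sub (un_L1 S)) (hy.sub hb) nx.le ny.le ?_
    rwa [add_sub_cancel, add_sub_cancel]

end Pool.Agent.Results.MP_09b497_an.No
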